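import Pool.Agent.E8helper43.SL.Asym

set_option autoImplicit false

namespace Pool.Agent.Results.MP_41f261_nt.EnergyH43

open Pool.Agent.E8helper43.SL

/-- the ball `B_N`: elements of `SL(2,ℤ)` of Euclidean (Frobenius) norm at most `N` -/
def ball (N : ℝ) : Set (Matrix.SpecialLinearGroup (Fin 2) ℤ) :=
  {γ | Real.sqrt (((γ.1 0 0 : ℤ) : ℝ) ^ 2 + ((γ.1 0 1 : ℤ) : ℝ) ^ 2 + ((γ.1 1 0 : ℤ) : ℝ) ^ 2 +
    ((γ.1 1 1 : ℤ) : ℝ) ^ 2) ≤ N}

/-- the ordered quadruples in `B_N^4` with `γ₁ + γ₂ = γ₃ + γ₄` as integer matrices -/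
def quads (N : ℝ) : Set (Matrix.SpecialLinearGroup (Fin 2) ℤ × Matrix.SpecialLinearGroup (Fin 2) ℤ ×
    Matrix.SpecialLinearGroup (Fin 2) ℤ × Matrix.SpecialLinearGroup (Fin 2) ℤ) :=
  {q | q.1 ∈ ball N ∧ q.2.1 ∈ ball N ∧ q.2.2.1 ∈ ball N ∧ q.2.2.2 ∈ ball N ∧
    q.1.1 + q.2.1.1 = q.2.2.1.1 + q.2.2.2.1}

/-- the entries of an element of the ball -/
theorem mem_ball_entries {N : ℝ} {γ : Matrix.SpecialLinearGroup (Fin 2) ℤ}
    (h : γ ∈ ball N) : InB ⌊N⌋₊ (fun i j => γ.1 i j) ∧ InB ⌊N⌋₊ (fun i j => - γ.1 i j) := by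
  have h' : Real.sqrt (((γ.1 0 0 : ℤ) : ℝ) ^ 2 + ((γ.1 0 1 : ℤ) : ℝ) ^ 2 +
    ((γ.1 1 0 : ℤ) : ℝ) ^ 2 + ((γ.1 1 1 : ℤ) : ℝ) ^ 2) ≤ N := h
  have hN : 0 ≤ N := (Real.sqrt_nonneg _).trans h'
  have hsq : ((γ.1 0 0 : ℤ) : ℝ) ^ 2 + ((γ.1 0 1 : ℤ) : ℝ) ^ 2 +
    ((γ.1 1 0 : ℤ) : ℝ) ^ 2 + ((γ.1 1 1 : ℤ) : ℝ) ^ 2 ≤ N ^ 2 := (Real.sqrt_le_left hN).1 h'
  have hent : ∀ x : ℤ, ((x : ℤ) : ℝ) ^ 2 ≤ N ^ 2 → x.natAbs ≤ ⌊N⌋₊ := by
    intro x hx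
    apply Nat.le_floor
    have h1 : |(x : ℝ)| ≤ N := abs_le_of_sq_le_sq hx hN
    have h2 : ((x.natAbs : ℕ) : ℝ) = |(x : ℝ)| := by rw [Nat.cast_natAbs]; push_cast; rfl
    rw [h2]; exact h1
  have e00 : (γ.1 0 0).natAbs ≤ ⌊N⌋₊ := hent _ (by
    nlinarith [sq_nonneg ((γ.1 0 1 : ℤ) : ℝ), sq_nonneg ((γ.1 1 0 : ℤ) : ℝ),
      sq_nonneg ((γ.1 1 1 : ℤ) : ℝ)])
  have e01 : (γ.1 0 1).natAbs ≤ ⌊N⌋₊ := hent _ (by
    nlinarith [sq_nonneg ((γ.1 0 0 : ℤ) : ℝ), sq_nonneg ((γ.1 1 0 : ℤ) : ℝ),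
      sq_nonneg ((γ.1 1 1 : ℤ) : ℝ)])
  have e10 : (γ.1 1 0).natAbs ≤ ⌊N⌋₊ := hent _ (by
    nlinarith [sq_nonneg ((γ.1 0 1 : ℤ) : ℝ), sq_nonneg ((γ.1 0 0 : ℤ) : ℝ),
      sq_nonneg ((γ.1 1 1 : ℤ) : ℝ)])
  have e11 : (γ.1 1 1).natAbs ≤ ⌊N⌋₊ := hent _ (by
    nlinarith [sq_nonneg ((γ.1 0 1 : ℤ) : ℝ), sq_nonneg ((γ.1 1 0 : ℤ) : ℝ),
      sq_nonneg ((γ.1 0 0 : ℤ) : ℝ)])
  have hdet : γ.1 0 0 * γ.1 1 1 - γ.1 0 1 * γ.1 1 0 = 1 := by
    have := γ.2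
    rwa [Matrix.det_fin_two] at this
  have hall : ∀ i j, (γ.1 i j).natAbs ≤ ⌊N⌋₊ := by
    intro i j
    fin_cases i <;> fin_cases j
    · exact e00
    · exact e01
    · exact e10
    · exact e11
  refine ⟨⟨hdet, hall⟩, ⟨?_, fun i j => ?_⟩⟩
  · show (- γ.1 0 0) * (- γ.1 1 1) - (- γ.1 0 1) * (- γ.1 1 0) = 1
    linarith
  · show (- γ.1 i j).natAbs ≤ ⌊N⌋₊
    rw [Int.natAbs_neg]; exact hall i j

/-- For every `ε > 0` the additive energy of the ball of radius `N` in `SL(2,ℤ)` is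
`≪_ε N^(4+ε)`. -/
theorem result : ∀ ε : ℝ, 0 < ε → ∃ C : ℝ, 0 < C ∧ ∀ N : ℝ, 1 ≤ N →
    (quads N).Finite ∧ ((quads N).ncard : ℝ) ≤ C * N ^ (4 + ε) := by
  classical
  intro ε hε
  obtain ⟨C, hC, hmain⟩ := triple_asym ε hε
  refine ⟨C, hC, ?_⟩
  intro N hN
  set R : ℕ := ⌊N⌋₊ with hR
  have hR1 : 1 ≤ R := Nat.le_floor (by simpa using hN)
  have hRN : (R : ℝ) ≤ N := Nat.floor_le (by linarith)
  -- the map to triples of matrices
  set f : Matrix.SpecialLinearGroup (Fin 2) ℤ × Matrix.SpecialLinearGroup (Fin 2) ℤ ×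
    Matrix.SpecialLinearGroup (Fin 2) ℤ × Matrix.SpecialLinearGroup (Fin 2) ℤ → M2 × M2 × M2 :=
    fun q => (fun i j => q.1.1 i j, fun i j => q.2.1.1 i j, fun i j => - q.2.2.1.1 i j) with hf
  have hinj : Set.InjOn f (quads N) := by
    intro q hq q' hq' h
    obtain ⟨-, -, -, -, e⟩ := hq
    obtain ⟨-, -, -, -, e'⟩ := hq'
    simp only [hf, Prod.mk.injEq] at h
    obtain ⟨h1, h2, h3⟩ := h
    have k1 : q.1 = q'.1 := by
      apply Subtype.ext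
      ext i j
      exact congrFun (congrFun h1 i) j
    have k2 : q.2.1 = q'.2.1 := by
      apply Subtype.ext
      ext i j
      exact congrFun (congrFun h2 i) j
    have k3 : q.2.2.1 = q'.2.2.1 := by
      apply Subtype.ext
      ext i j
      exact neg_injective (congrFun (congrFun h3 i) j)
    have k4 : q.2.2.2 = q'.2.2.2 := by
      apply Subtype.ext
      rw [k1, k2, k3] at e
      have : q'.2.2.1.1 + q.2.2.2.1 = q'.2.2.1.1 + q'.2.2.2.1 := by rw [← e, ← e']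
      exact add_left_cancel this
    exact Prod.ext k1 (Prod.ext k2 (Prod.ext k3 k4))
  have hprop : ∀ x ∈ f '' (quads N), InB R x.1 ∧ InB R x.2.1 ∧ InB R x.2.2 ∧
      InB R (-x.1 - x.2.1 - x.2.2) := by
    rintro x ⟨q, ⟨h1, h2, h3, h4, h5⟩, rfl⟩
    refine ⟨(mem_ball_entries h1).1, (mem_ball_entries h2).1, (mem_ball_entries h3).2, ?_⟩
    have e : (-(f q).1 - (f q).2.1 - (f q).2.2 : M2) = fun i j => - q.2.2.2.1 i j := by
      funext i j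
      have := congrFun (congrFun h5 i) j
      simp only [Matrix.add_apply] at this
      show - q.1.1 i j - q.2.1.1 i j - (- q.2.2.1.1 i j) = - q.2.2.2.1 i j
      linarith
    rw [e]
    exact (mem_ball_entries h4).2
  -- finiteness
  have hboxfin : ({m : M2 | ∀ i j, (m i j).natAbs ≤ R} : Set M2).Finite := by
    apply Set.Finite.subset (Set.finite_Icc (fun _ _ => -(R:ℤ) : M2) (fun _ _ => (R:ℤ)))
    intro m hm
    constructor
    · intro i j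
      have : (m i j).natAbs ≤ R := hm i j
      show -(R:ℤ) ≤ m i j
      omega
    · intro i j
      have : (m i j).natAbs ≤ R := hm i j
      show m i j ≤ (R:ℤ)
      omega
  have himfin : (f '' (quads N)).Finite := by
    apply Set.Finite.subset (hboxfin.prod (hboxfin.prod hboxfin))
    intro x hx
    obtain ⟨h1, h2, h3, -⟩ := hprop x hx
    exact ⟨h1.2, h2.2, h3.2⟩
  have hfin : (quads N).Finite := Set.Finite.of_finite_image himfin hinj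
  refine ⟨hfin, ?_⟩
  have hcard : (quads N).ncard = himfin.toFinset.card := by
    rw [← Set.InjOn.ncard_image hinj, Set.ncard_eq_toFinset_card _ himfin]
  rw [hcard]
  have := hmain R hR1 himfin.toFinset (by
    intro x hx
    exact hprop x (himfin.mem_toFinset.1 hx))
  refine this.trans ?_
  apply mul_le_mul_of_nonneg_left _ hC.le
  exact Real.rpow_le_rpow (by positivity) hRN (by positivity)

end Pool.Agent.Results.MP_41f261_nt.EnergyH43
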